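import Pool.Agent.H82.CO.Final
import Pool.Agent.H82.CO.FS
import Pool.Agent.H82.CO.Final5

set_option autoImplicit false

/-!
# The sum of the character over the squares
-/

namespace Pool.Agent.H82.SQ

open Finset Pool.Agent.H82.CO

variable {G : Type} [Group G] [Fintype G] {N : ℕ}

/-- The sum over `i` of `1 / m_i` times the number of square roots of the powers of `s i` other
than `1`. -/
noncomputable def rho (s : Fin N → G) : ℝ :=
  ∑ i, (1 / (orderOf (s i) : ℝ)) * ∑ k ∈ Ico 1 (orderOf (s i)), rt (s i ^ k)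

theorem rt_nonneg (g : G) : 0 ≤ rt g := by
  rw [rt]
  exact sum_nonneg fun u _ => by split_ifs <;> norm_num

theorem rt_conj (x h : G) : rt (x * h * x⁻¹) = rt h := by
  classical
  rw [rt, rt]
  refine Fintype.sum_equiv (MulAut.conj x⁻¹).toEquiv _ _ fun u => ?_
  have h1 : u ^ 2 = x * h * x⁻¹ ↔ ((MulAut.conj x⁻¹).toEquiv u) ^ 2 = h := by
    simp only [MulEquiv.toEquiv_eq_coe, EquivLike.coe_coe, MulAut.conj_apply, inv_inv]
    constructor
    · intro h1
      have : (x⁻¹ * u * x) ^ 2 = x⁻¹ * u ^ 2 * x := by rw [sq, sq]; group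
      rw [this, h1]
      group
    · intro h1
      have : (x⁻¹ * u * x) ^ 2 = x⁻¹ * u ^ 2 * x := by rw [sq, sq]; group
      rw [this] at h1
      rw [← h1]
      group
  simp only [h1]

theorem sum_rt_fP (c : G) : ∑ h : G, rt h * fP c h = ∑ k ∈ Ico 1 (orderOf c), rt (c ^ k) := by
  classical
  have hm := orderOf_pos c
  have h1 : ∀ h : G, rt h * fP c h =
      ∑ k ∈ range (orderOf c), if c ^ k = h ∧ k ≠ 0 then rt h else 0 := by
    intro h
    rw [fP, mul_sum]
    refine sum_congr rfl fun k _ => ?_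
    split_ifs <;> simp
  rw [sum_congr rfl fun h _ => h1 h, sum_comm]
  have h2 : ∀ k, (∑ h : G, if c ^ k = h ∧ k ≠ 0 then rt h else 0) =
      if k ≠ 0 then rt (c ^ k) else 0 := by
    intro k
    by_cases hk : k = 0
    · simp [hk]
    · simp [hk]
  rw [sum_congr rfl fun k _ => h2 k, ← sum_filter]
  refine sum_congr ?_ fun _ _ => rfl
  ext k
  simp only [mem_filter, mem_range, mem_Ico]
  omega

theorem sum_rt_indF (c : G) : ∑ g : G, rt g * indF c g =
    Nat.card G * ((1 / (orderOf c : ℝ)) * ∑ k ∈ Ico 1 (orderOf c), rt (c ^ k)) := by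
  have h1 : ∀ g : G, rt g * indF c g =
      (1 / (orderOf c : ℝ)) * ∑ x : G, rt (x⁻¹ * g * x) * fP c (x⁻¹ * g * x) := by
    intro g
    rw [indF, mul_left_comm, mul_sum]
    congr 1
    refine sum_congr rfl fun x _ => ?_
    have := rt_conj x⁻¹ g
    rw [inv_inv] at this
    rw [this]
  rw [sum_congr rfl fun g _ => h1 g, ← mul_sum, sum_comm]
  have h3 : ∀ x : G, ∑ g : G, rt (x⁻¹ * g * x) * fP c (x⁻¹ * g * x) = ∑ h : G, rt h * fP c h := by
    intro x
    exact Fintype.sum_equiv (MulAut.conj x⁻¹).toEquiv _ _ fun g => by simp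
  rw [sum_congr rfl fun x _ => h3 x, sum_const, card_univ, nsmul_eq_mul, sum_rt_fP,
    ← Nat.card_eq_fintype_card]
  ring

/-- The sum over the squares. -/
theorem fs_formula (s : Fin N → G) : ∑ g : G, (chi s (g ^ 2)).re =
    (Nat.card G : ℝ) + Nat.card G * (rt (1 : G) * (nu s - 2) / 2) - Nat.card G * (rho s / 2) := by
  classical
  rw [sum_comp_sq (fun g => (chi s g).re)]
  have h1 : ∀ g : G, rt g * (chi s g).re =
      (if g = 1 then rt (1 : G) * (genus s - 1) else 0) + rt g -
        (∑ i, rt g * indF (s i) g) / 2 := by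
    intro g
    by_cases hg : g = 1
    · subst hg
      rw [chi_one, Complex.ofReal_re, if_pos rfl]
      simp only [indF_one]
      simp
      ring
    · rw [if_neg hg, chi_re s hg, ← mul_sum]
      ring
  rw [sum_congr rfl fun g _ => h1 g, sum_sub_distrib, sum_add_distrib, sum_ite_eq',
    if_pos (mem_univ _), sum_rt, ← sum_div, sum_comm,
    sum_congr rfl fun i _ => sum_rt_indF (s i), ← mul_sum, genus_eq, rho]
  ring

theorem tensor_eq (s : Fin N → G) : Nat.card G * (quadInv s + extInv s).re =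
    ∑ g : G, ((chi s g).re ^ 2 - (chi s g).im ^ 2) := by
  have hn0 : (0 : ℝ) < Nat.card G := by exact_mod_cast Nat.card_pos
  have h2 : (1 / (2 * (Nat.card G : ℂ))) = ((1 / (2 * (Nat.card G : ℝ)) : ℝ) : ℂ) := by
    push_cast; rfl
  rw [quadInv, extInv, ← mul_add, ← sum_add_distrib, h2, Complex.re_ofReal_mul, Complex.re_sum]
  have h3 : ∀ g : G, (chi s g ^ 2 + chi s (g ^ 2) + (chi s g ^ 2 - chi s (g ^ 2))).re =
      2 * ((chi s g).re ^ 2 - (chi s g).im ^ 2) := by
    intro g
    have h5 : chi s g ^ 2 + chi s (g ^ 2) + (chi s g ^ 2 - chi s (g ^ 2)) =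
        chi s g * chi s g + chi s g * chi s g := by ring
    rw [h5, Complex.add_re, Complex.mul_re]
    ring
  rw [sum_congr rfl fun g _ => h3 g, ← mul_sum]
  field_simp

/-- The Frobenius-Schur formula. -/
theorem two_quadInv (s : Fin N → G) : 2 * (quadInv s).re =
    (quadInv s + extInv s).re + 1 + rt (1 : G) * (nu s - 2) / 2 - rho s / 2 := by
  have hn0 : (0 : ℝ) < Nat.card G := by exact_mod_cast Nat.card_pos
  have h1 := tensor_eq s
  have h2 := fs_formula s
  have h4 : 2 * Nat.card G * (quadInv s).re =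
      ∑ g : G, ((chi s g).re ^ 2 - (chi s g).im ^ 2) + ∑ g : G, (chi s (g ^ 2)).re := by
    have h2 : (1 / (2 * (Nat.card G : ℂ))) = ((1 / (2 * (Nat.card G : ℝ)) : ℝ) : ℂ) := by
      push_cast; rfl
    rw [quadInv, h2, Complex.re_ofReal_mul, Complex.re_sum, ← sum_add_distrib]
    have h3 : ∀ g : G, (chi s g ^ 2 + chi s (g ^ 2)).re =
        (chi s g).re ^ 2 - (chi s g).im ^ 2 + (chi s (g ^ 2)).re := by
      intro g
      rw [Complex.add_re, sq, Complex.mul_re]
      ring
    rw [sum_congr rfl fun g _ => h3 g]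
    field_simp
  rw [← h1, h2] at h4
  have h5 : (Nat.card G : ℝ) * (2 * (quadInv s).re) = Nat.card G *
      ((quadInv s + extInv s).re + 1 + rt (1 : G) * (nu s - 2) / 2 - rho s / 2) := by
    linarith
  exact mul_left_cancel₀ hn0.ne' h5

theorem nu_ge_two (s : Fin N → G) (hs : ∀ i, s i ≠ 1) (hN : 4 ≤ N) : 2 ≤ nu s := by
  have h1 := nu_ge s hs
  have h2 : (4 : ℝ) ≤ N := by exact_mod_cast hN
  linarith

/-- A lower bound for the dimension of the invariants in the tensor square gives one for the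
symmetric square. -/
theorem two_quadInv_ge (s : Fin N → G) (hs : ∀ i, s i ≠ 1) (hN : 4 ≤ N) {E : ℝ}
    (hE : E - 1 ≤ (quadInv s + extInv s).re) : E - rho s / 2 ≤ 2 * (quadInv s).re := by
  have h1 := two_quadInv s
  have h2 : 0 ≤ rt (1 : G) * (nu s - 2) / 2 := by
    have := nu_ge_two s hs hN
    have := rt_nonneg (1 : G)
    have : 0 ≤ rt (1 : G) * (nu s - 2) := mul_nonneg this (by linarith)
    linarith
  linarith

/-- The powers of `s i` other than `1` have at most `r` square roots. -/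
theorem rho_le (s : Fin N → G) {r : ℝ} (hr : 0 ≤ r)
    (h : ∀ i, ∀ k : ℕ, s i ^ k ≠ 1 → rt (s i ^ k) ≤ r) : rho s ≤ N * r := by
  have h1 : ∀ i, (1 / (orderOf (s i) : ℝ)) * ∑ k ∈ Ico 1 (orderOf (s i)), rt (s i ^ k) ≤ r := by
    intro i
    have hm : (0 : ℝ) < orderOf (s i) := by exact_mod_cast orderOf_pos (s i)
    have h2 : ∑ k ∈ Ico 1 (orderOf (s i)), rt (s i ^ k) ≤ orderOf (s i) * r := by
      have h3 : ∀ k ∈ Ico 1 (orderOf (s i)), rt (s i ^ k) ≤ r := by
        intro k hk
        rw [mem_Ico] at hk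
        refine h i k fun h1 => ?_
        rw [← orderOf_dvd_iff_pow_eq_one] at h1
        have := Nat.eq_zero_of_dvd_of_lt h1 hk.2
        omega
      refine (sum_le_sum h3).trans ?_
      rw [sum_const, Nat.card_Ico, nsmul_eq_mul]
      refine mul_le_mul_of_nonneg_right ?_ hr
      exact_mod_cast Nat.sub_le _ _
    rw [one_div, inv_mul_le_iff₀ hm]
    exact h2
  rw [rho]
  refine (sum_le_sum fun i _ => h1 i).trans (le_of_eq ?_)
  rw [sum_const, card_univ, Fintype.card_fin, nsmul_eq_mul]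

/-- The bound by the orders. -/
theorem rho_le' (s : Fin N → G) : rho s ≤ Nat.card G * ∑ i, 1 / (orderOf (s i) : ℝ) := by
  classical
  rw [rho, mul_sum]
  refine sum_le_sum fun i _ => ?_
  rw [mul_comm]
  refine mul_le_mul_of_nonneg_right ?_ (by positivity)
  rw [← sum_rt]
  have h1 : Set.InjOn (fun k : ℕ => s i ^ k) (Ico 1 (orderOf (s i)) : Finset ℕ) := by
    intro k hk l hl hkl
    rw [mem_coe, mem_Ico] at hk hl
    exact pow_injOn_Iio_orderOf (Set.mem_Iio.2 hk.2) (Set.mem_Iio.2 hl.2) hkl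
  rw [← sum_image (f := fun g : G => rt g) h1]
  exact sum_le_sum_of_subset_of_nonneg (subset_univ _) fun g _ _ => rt_nonneg g

end Pool.Agent.H82.SQ
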