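import Pool.Agent.H82.SQ.FS
import Pool.Agent.H82.CO.Big

set_option autoImplicit false

/-!
# Consequences of the bound for the invariants in the tensor square
-/

namespace Pool.Agent.H82.SQ

open Finset Pool.Agent.H82.CO

variable {G : Type} [Group G] [Fintype G] {N : ℕ}

theorem rt_eq_card (g : G) : rt g = (Nat.card {x : G // x ^ 2 = g} : ℝ) := by
  classical
  rw [rt, sum_boole, Nat.card_eq_fintype_card, Fintype.card_subtype]

omit [Fintype G] in
theorem centralizer_card (g : G) : Nat.card (Subgroup.centralizer ({g} : Set G)) =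
    (Nat.card {x : G // Commute x g}) := by
  refine Nat.card_congr (Equiv.subtypeEquivRight fun x => ?_)
  rw [Subgroup.mem_centralizer_iff]
  constructor
  · intro h
    exact (h g rfl).symm
  · intro h y hy
    rw [Set.mem_singleton_iff.1 hy]
    exact h.eq.symm

theorem rt_le_centralizer (g : G) : rt g ≤ (Nat.card (Subgroup.centralizer ({g} : Set G)) : ℝ) := by
  rw [rt_eq_card, centralizer_card]
  norm_cast
  refine Nat.card_le_card_of_injective
    (fun x : {x : G // x ^ 2 = g} => (⟨x.1, by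
      have h := (Commute.refl x.1).pow_right 2
      rwa [x.2] at h⟩ : {x : G // Commute x g})) ?_
  intro x y hxy
  exact Subtype.ext (congrArg (fun z : {x : G // Commute x g} => z.1) hxy)

theorem count_le_centralizer (x : G) :
    cj x ≤ (Nat.card (Subgroup.centralizer ({x} : Set G)) : ℝ) := by
  classical
  have h0 : 0 < ((Subgroup.centralizer ({x} : Set G)).index : ℝ) := by
    exact_mod_cast Nat.pos_of_ne_zero Subgroup.index_ne_zero_of_finite
  have h1 : cj x ≤ Nat.card G / ((Subgroup.centralizer ({x⁻¹} : Set G)).index : ℝ) := by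
    rw [cj]
    refine card_conj_le ?_ le_rfl x
    exact_mod_cast Nat.pos_of_ne_zero Subgroup.index_ne_zero_of_finite
  have h2 : Subgroup.centralizer ({x⁻¹} : Set G) = Subgroup.centralizer ({x} : Set G) := by
    ext y
    simp only [Subgroup.mem_centralizer_iff, Set.mem_singleton_iff, forall_eq]
    constructor
    · intro h
      have h3 : Commute x⁻¹ y := h
      exact (Commute.inv_left_iff.1 h3).eq
    · intro h
      have h3 : Commute x y := h
      exact (Commute.inv_left_iff.2 h3).eq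
  rw [h2] at h1
  refine h1.trans (le_of_eq ?_)
  rw [div_eq_iff h0.ne']
  exact_mod_cast ((Subgroup.centralizer ({x} : Set G)).card_mul_index).symm

/-- The number of pairs with the same square is at most the number of commuting pairs. -/
theorem Qs_le_classes : Qs G ≤ (Nat.card G : ℝ) * Nat.card (ConjClasses G) := by
  classical
  rw [Qs_eq_cj]
  refine (sum_le_sum fun x _ => count_le_centralizer x).trans (le_of_eq ?_)
  have h1 : (Nat.card { p : G × G // Commute p.1 p.2 } : ℝ) =
      ∑ x : G, (Nat.card (Subgroup.centralizer ({x} : Set G)) : ℝ) := by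
    have h2 : Nat.card { p : G × G // Commute p.1 p.2 } =
        Nat.card (Σ x : G, {y : G // Commute y x}) := by
      refine Nat.card_congr
        { toFun := fun p => ⟨p.1.2, ⟨p.1.1, p.2⟩⟩
          invFun := fun q => ⟨(q.2.1, q.1), q.2.2⟩
          left_inv := fun p => rfl
          right_inv := fun q => rfl }
    rw [h2, Nat.card_sigma]
    push_cast
    exact sum_congr rfl fun x _ => by rw [centralizer_card]
  rw [← h1, card_comm_eq_card_conjClasses_mul_card]
  push_cast
  ring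

theorem rt_sq_le (g : G) : rt g ^ 2 ≤ (Nat.card G : ℝ) * Nat.card (ConjClasses G) := by
  refine le_trans ?_ Qs_le_classes
  rw [Qs]
  exact single_le_sum (f := fun g : G => rt g ^ 2) (fun g _ => sq_nonneg _) (mem_univ g)

/-- The strict form of `rho_le`. -/
theorem rho_lt (s : Fin N → G) (hs : ∀ i, s i ≠ 1) (hN : 0 < N) {r : ℝ} (hr : 0 < r)
    (h : ∀ i, ∀ k : ℕ, s i ^ k ≠ 1 → rt (s i ^ k) < r) : rho s < N * r := by
  have h1 : ∀ i, (1 / (orderOf (s i) : ℝ)) * ∑ k ∈ Ico 1 (orderOf (s i)), rt (s i ^ k) < r := by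
    intro i
    have hm2 := order_ge s hs i
    have hm : (0 : ℝ) < orderOf (s i) := by exact_mod_cast orderOf_pos (s i)
    have h2 : ∑ k ∈ Ico 1 (orderOf (s i)), rt (s i ^ k) < orderOf (s i) * r := by
      have h3 : ∀ k ∈ Ico 1 (orderOf (s i)), rt (s i ^ k) < r := by
        intro k hk
        rw [mem_Ico] at hk
        refine h i k fun h1 => ?_
        rw [← orderOf_dvd_iff_pow_eq_one] at h1
        have := Nat.eq_zero_of_dvd_of_lt h1 hk.2
        omega
      refine lt_of_lt_of_le (sum_lt_sum_of_nonempty ⟨1, mem_Ico.2 ⟨le_rfl, by omega⟩⟩ h3) ?_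
      rw [sum_const, Nat.card_Ico, nsmul_eq_mul]
      refine mul_le_mul_of_nonneg_right ?_ hr.le
      exact_mod_cast Nat.sub_le _ _
    rw [one_div, inv_mul_lt_iff₀ hm]
    exact h2
  rw [rho]
  have h4 : (univ : Finset (Fin N)).Nonempty := ⟨⟨0, hN⟩, mem_univ _⟩
  refine lt_of_lt_of_eq (sum_lt_sum_of_nonempty h4 fun i _ => h1 i) ?_
  rw [sum_const, card_univ, Fintype.card_fin, nsmul_eq_mul]

/-- A power of some `s i` has many square roots. -/
theorem many_roots (s : Fin N → G) (hs : ∀ i, s i ≠ 1) (hN : 4 ≤ N)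
    (hT : N = 4 → 5 / 1296 * (Nat.card G : ℝ) - 1 ≤ (quadInv s + extInv s).re)
    (hd : (quadInv s).re ≤ (N : ℝ) - 3) :
    ∃ i, ∃ k : ℕ, s i ^ k ≠ 1 ∧ 5 / 2592 * (Nat.card G : ℝ) - 1 ≤ rt (s i ^ k) := by
  by_contra hne
  push Not at hne
  obtain ⟨r, hr⟩ : ∃ r : ℝ, r = 5 / 2592 * (Nat.card G : ℝ) - 1 := ⟨_, rfl⟩
  have h0 := hne ⟨0, by omega⟩ 1 (by rw [pow_one]; exact hs _)
  rw [← hr] at hne h0
  have hr0 : 0 < r := lt_of_le_of_lt (rt_nonneg _) h0
  have h1 := rho_lt s hs (by omega) hr0 hne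
  rcases (by omega : N = 4 ∨ N = 5 ∨ 6 ≤ N) with h4 | h5 | h6
  · have h2 := two_quadInv_ge s hs hN (hT h4)
    have hN4 : (N : ℝ) = 4 := by rw [h4]; norm_num
    rw [hN4] at h1 hd
    linarith
  · subst h5
    have h2 := two_quadInv_ge s hs hN (E := (Nat.card G : ℝ) / 16) (by
      have := tensor_five s hs
      linarith)
    push_cast at h1 hd
    linarith
  · have h2 := (bounds s hs h6 hd).2.1
    have h3 : (Nat.card G : ℝ) ≤ 47 := by exact_mod_cast h2
    linarith

/-- A power of some `s i` has few conjugates. -/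
theorem small_class (s : Fin N → G) (hs : ∀ i, s i ≠ 1) (hN : 4 ≤ N)
    (hT : N = 4 → 5 / 1296 * (Nat.card G : ℝ) - 1 ≤ (quadInv s + extInv s).re)
    (hd : (quadInv s).re ≤ (N : ℝ) - 3) :
    ∃ (i : Fin N) (k : ℕ), s i ^ k ≠ 1 ∧
      (Subgroup.centralizer ({s i ^ k} : Set G)).index ≤ 777 := by
  by_contra hne
  push Not at hne
  obtain ⟨i, k, hk, h1⟩ := many_roots s hs hN hT hd
  have h2 := h1.trans (rt_le_centralizer _)
  have h3 := hne i k hk
  obtain ⟨c, hc⟩ : ∃ c, c = s i ^ k := ⟨_, rfl⟩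
  rw [← hc] at h1 h2 h3 hk
  have h4 : ((Nat.card (Subgroup.centralizer ({c} : Set G)) : ℝ)) *
      (Subgroup.centralizer ({c} : Set G)).index = Nat.card G := by
    exact_mod_cast (Subgroup.centralizer ({c} : Set G)).card_mul_index
  have h5 : (778 : ℝ) ≤ (Subgroup.centralizer ({c} : Set G)).index := by exact_mod_cast h3
  have h6 : (2 : ℝ) ≤ Nat.card (Subgroup.centralizer ({c} : Set G)) := by
    have h4 : c ∈ Subgroup.centralizer ({c} : Set G) := by
      rw [Subgroup.mem_centralizer_iff]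
      intro y hy
      rw [Set.mem_singleton_iff.1 hy]
    have h5 : Nontrivial (Subgroup.centralizer ({c} : Set G)) :=
      ⟨⟨⟨_, h4⟩, 1, fun h => hk (congrArg Subtype.val h)⟩⟩
    exact_mod_cast Finite.one_lt_card_iff_nontrivial.2 h5
  nlinarith [mul_le_mul_of_nonneg_left h5 (by linarith :
    (0 : ℝ) ≤ Nat.card (Subgroup.centralizer ({c} : Set G)))]

/-- There are many classes. -/
theorem many_classes (s : Fin N → G) (hs : ∀ i, s i ≠ 1) (hN : 4 ≤ N)
    (hT : N = 4 → 5 / 1296 * (Nat.card G : ℝ) - 1 ≤ (quadInv s + extInv s).re)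
    (hd : (quadInv s).re ≤ (N : ℝ) - 3) :
    3 / 1000000 * (Nat.card G : ℝ) < Nat.card (ConjClasses G) := by
  by_contra hc
  push Not at hc
  obtain ⟨i, k, hk, h1⟩ := many_roots s hs hN hT hd
  have h2 := rt_sq_le (s i ^ k)
  have h3 : (1 : ℝ) ≤ Nat.card (ConjClasses G) := by
    exact_mod_cast (Nat.card_pos : 0 < Nat.card (ConjClasses G))
  obtain ⟨n, hn⟩ : ∃ n : ℝ, n = Nat.card G := ⟨_, rfl⟩
  rw [← hn] at hc h1 h2
  have h4 : (300000 : ℝ) ≤ n := by linarith
  have h5 : rt (s i ^ k) ^ 2 ≤ (18 / 10000 * n) ^ 2 := by nlinarith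
  have h6 : rt (s i ^ k) ≤ 18 / 10000 * n := abs_le_of_sq_le_sq' h5 (by linarith) |>.2
  linarith

/-- Some order is small. -/
theorem small_order (s : Fin N → G) (hs : ∀ i, s i ≠ 1) (hN : 4 ≤ N)
    (hna : ¬ ∀ a b : G, a * b = b * a)
    (hT : N = 4 → (∀ i, s i ^ 2 ≠ 1) →
      5 / 81 * (Nat.card G : ℝ) - 1 ≤ (quadInv s + extInv s).re)
    (hlt : (quadInv s).re ≤ (N : ℝ) - 3) : ∃ i, orderOf (s i) ≤ 72 := by
  by_contra hne
  push Not at hne
  have hm : ∀ i, 73 ≤ orderOf (s i) := fun i => hne i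
  have hm2 : ∀ i, s i ^ 2 ≠ 1 := by
    intro i h2
    have h3 := orderOf_le_of_pow_eq_one (by norm_num) h2
    have := hm i
    omega
  have hn : (146 : ℝ) ≤ Nat.card G := by
    have h1 := (Subgroup.zpowers (s ⟨0, by omega⟩)).card_mul_index
    have h2 : Nat.card (Subgroup.zpowers (s ⟨0, by omega⟩)) = orderOf (s ⟨0, by omega⟩) :=
      Nat.card_zpowers _
    have h3 : (Subgroup.zpowers (s ⟨0, by omega⟩)).index ≠ 1 := by
      intro h3
      rw [Subgroup.index_eq_one] at h3
      apply hna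
      intro a b
      have ha : a ∈ Subgroup.zpowers (s ⟨0, by omega⟩) := by rw [h3]; trivial
      have hb : b ∈ Subgroup.zpowers (s ⟨0, by omega⟩) := by rw [h3]; trivial
      obtain ⟨x, rfl⟩ := Subgroup.mem_zpowers_iff.1 ha
      obtain ⟨y, rfl⟩ := Subgroup.mem_zpowers_iff.1 hb
      rw [← zpow_add, ← zpow_add, add_comm]
    have h4 : (Subgroup.zpowers (s ⟨0, by omega⟩)).index ≠ 0 := Subgroup.index_ne_zero_of_finite
    have h5 := hm ⟨0, by omega⟩
    have h6 : 146 ≤ Nat.card G := by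
      rw [← h1, h2]
      calc 146 = 73 * 2 := by norm_num
        _ ≤ _ := Nat.mul_le_mul h5 (by omega)
    exact_mod_cast h6
  have hy : ∑ i, 1 / (orderOf (s i) : ℝ) ≤ N / 73 := by
    have h1 : ∀ i, 1 / (orderOf (s i) : ℝ) ≤ 1 / 73 := fun i =>
      one_div_le_one_div_of_le (by norm_num) (by exact_mod_cast hm i)
    refine (sum_le_sum fun i _ => h1 i).trans (le_of_eq ?_)
    rw [sum_const, card_univ, Fintype.card_fin, nsmul_eq_mul]
    ring
  have hrho := (rho_le' s).trans (mul_le_mul_of_nonneg_left hy (Nat.cast_nonneg _))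
  rcases (by omega : N = 4 ∨ N = 5 ∨ 6 ≤ N) with h4 | h5 | h6
  · have h2 := two_quadInv_ge s hs hN (hT h4 hm2)
    have hN4 : (N : ℝ) = 4 := by rw [h4]; norm_num
    rw [hN4] at hrho hlt
    linarith
  · subst h5
    have h2 := two_quadInv_ge s hs hN (E := (Nat.card G : ℝ) / 16) (by
      have := tensor_five s hs
      linarith)
    push_cast at hrho hlt
    linarith
  · have h2 := (bounds s hs h6 hlt).2.1
    have h3 : (Nat.card G : ℝ) ≤ 47 := by exact_mod_cast h2
    linarith

end Pool.Agent.H82.SQ
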