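import Pool.Agent.H82.SQ.Cor
import Pool.Agent.H82.CO.Core

set_option autoImplicit false

/-!
# The final theorem, from the bound for the invariants in the tensor square for `N = 4`
-/

namespace Pool.Agent.H82.SQ

open Finset Pool.Agent.H82.CO

variable {G : Type} [Group G] [Fintype G] {N : ℕ}

open Classical in
theorem fP_eq (c h : G) : fP c h = if h ≠ 1 ∧ h ∈ Subgroup.zpowers c then 1 else 0 := by
  split_ifs with hh
  · obtain ⟨h1, h2⟩ := hh
    rw [← mem_powers_iff_mem_zpowers, Submonoid.mem_powers_iff] at h2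
    obtain ⟨k, rfl⟩ := h2
    rw [← pow_mod_orderOf] at h1 ⊢
    refine fP_pow c (Nat.mod_lt _ (orderOf_pos c)) fun h0 => h1 ?_
    rw [h0, pow_zero]
  · refine fP_eq_zero fun k hk hk0 h1 => hh ⟨?_, ?_⟩
    · rintro rfl
      rw [← orderOf_dvd_iff_pow_eq_one] at h1
      exact hk0 (Nat.eq_zero_of_dvd_of_lt h1 hk)
    · rw [← h1]
      exact Subgroup.npow_mem_zpowers c k

theorem sum_rt_pow (c : G) : ∑ k ∈ Ico 1 (orderOf c), rt (c ^ k) =
    (Nat.card {x : G // x ^ 2 ≠ 1 ∧ x ^ 2 ∈ Subgroup.zpowers c} : ℝ) := by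
  classical
  rw [← sum_rt_fP, ← sum_comp_sq, Nat.card_eq_fintype_card, Fintype.card_subtype, ← sum_boole]
  exact sum_congr rfl fun x _ => fP_eq c _

theorem rho_eq (s : Fin N → G) : rho s = ∑ i, (1 / (orderOf (s i) : ℝ)) *
    (Nat.card {x : G // x ^ 2 ≠ 1 ∧ x ^ 2 ∈ Subgroup.zpowers (s i)} : ℝ) := by
  rw [rho]
  exact sum_congr rfl fun i _ => by rw [sum_rt_pow]

theorem sq_lt_ext (s : Fin N → G) (hs : ∀ i, s i ≠ 1) (hN : 4 ≤ N)
    (h4 : N = 4 → 5 / 1296 * (Nat.card G : ℝ) - 1 ≤ (quadInv s + extInv s).re)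
    (hd : (quadInv s).re ≤ (N : ℝ) - 3) (hn : 778 ≤ Nat.card G) :
    (quadInv s).re < (extInv s).re := by
  have hn' : (778 : ℝ) ≤ Nat.card G := by exact_mod_cast hn
  rcases (by omega : N = 4 ∨ N = 5 ∨ 6 ≤ N) with h | h | h
  · have h1 := h4 h
    have hN4 : (N : ℝ) = 4 := by rw [h]; norm_num
    rw [hN4] at hd
    rw [Complex.add_re] at h1
    linarith
  · subst h
    have h1 := tensor_five s hs
    push_cast at hd
    rw [Complex.add_re] at h1
    linarith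
  · have h2 := (bounds s hs h hd).2.1
    omega

/-- The final theorem. -/
theorem final (s : Fin N → G) (hs : ∀ i, s i ≠ 1) (hN : 4 ≤ N)
    (hna : ¬ ∀ a b : G, a * b = b * a)
    (h4 : N = 4 → 5 / 1296 * (Nat.card G : ℝ) - 1 ≤ (quadInv s + extInv s).re)
    (h4' : N = 4 → (∀ i, s i ^ 2 ≠ 1) →
      5 / 81 * (Nat.card G : ℝ) - 1 ≤ (quadInv s + extInv s).re) :
    (N ≤ 5 → 5 / 1296 * (Nat.card G : ℝ) - 1 ≤ (quadInv s + extInv s).re ∧
      ((∀ i, s i ^ 2 ≠ 1) → 5 / 81 * (Nat.card G : ℝ) - 1 ≤ (quadInv s + extInv s).re) ∧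
      5 / 1296 * (Nat.card G : ℝ) - 1 / 2 * ∑ i, (1 / (orderOf (s i) : ℝ)) *
          (Nat.card {x : G // x ^ 2 ≠ 1 ∧ x ^ 2 ∈ Subgroup.zpowers (s i)} : ℝ) ≤
        2 * (quadInv s).re) ∧
    ((quadInv s).re ≤ (N : ℝ) - 3 →
      (∃ (i : Fin N) (k : ℕ), s i ^ k ≠ 1 ∧
        5 / 2592 * (Nat.card G : ℝ) - 1 ≤ Nat.card {x : G // x ^ 2 = s i ^ k}) ∧
      (∃ (i : Fin N) (k : ℕ), s i ^ k ≠ 1 ∧
        (Subgroup.centralizer ({s i ^ k} : Set G)).index ≤ 777) ∧
      3 / 1000000 * (Nat.card G : ℝ) < Nat.card (ConjClasses G) ∧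
      (∃ i, orderOf (s i) ≤ 72) ∧
      (Nat.card G ≤ Nat.factorial 777 ∨
        ∃ M : Subgroup G, M.Normal ∧ M ≠ ⊥ ∧ Subgroup.centralizer (M : Set G) ≠ ⊥) ∧
      (778 ≤ Nat.card G → (quadInv s).re < (extInv s).re)) := by
  have hn : (0 : ℝ) ≤ Nat.card G := Nat.cast_nonneg _
  refine ⟨fun h5 => ?_, fun hd => ⟨?_, small_class s hs hN h4 hd, many_classes s hs hN h4 hd,
    small_order s hs hN hna h4' hd, ?_, sq_lt_ext s hs hN h4 hd⟩⟩
  · have h1 : 5 / 1296 * (Nat.card G : ℝ) - 1 ≤ (quadInv s + extInv s).re := by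
      rcases (by omega : N = 4 ∨ N = 5) with h | h
      · exact h4 h
      · subst h
        have := tensor_five s hs
        linarith
    refine ⟨h1, fun h2 => ?_, ?_⟩
    · rcases (by omega : N = 4 ∨ N = 5) with h | h
      · exact h4' h h2
      · subst h
        have := tensor_five s hs
        linarith
    · have := two_quadInv_ge s hs hN h1
      rw [← rho_eq]
      linarith
  · obtain ⟨i, k, hk, h1⟩ := many_roots s hs hN h4 hd
    exact ⟨i, k, hk, by rwa [rt_eq_card] at h1⟩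
  · obtain ⟨i, k, hk, h1⟩ := small_class s hs hN h4 hd
    exact exists_normal_of_small hk h1

end Pool.Agent.H82.SQ
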